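import Mathlib

/-
Random centres: the geometric piece and the probability estimate.
-/

namespace Pool.Agent.MP_66cee2_co.H26U

open MeasureTheory Set Metric ProbabilityTheory
open scoped ENNReal RealInnerProductSpace

abbrev V (d : ℕ) : Type := EuclideanSpace ℝ (Fin d)

variable {d : ℕ}

theorem piece {u w : V d} {ρ : ℝ} (hρ : ρ ^ 2 = 27 / 16) (hρ0 : 0 ≤ ρ) (hu : ‖u‖ < 1 / 2)
    (h : ρ < ‖w - (3 / 2 : ℝ) • u‖) : 2 * ⟪u, w⟫ < ‖w‖ ^ 2 - ‖w‖ := by
  by_contra hc
  rw [not_lt] at hc
  have h1 : ρ ^ 2 < ‖w - (3 / 2 : ℝ) • u‖ ^ 2 := pow_lt_pow_left₀ h hρ0 two_ne_zero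
  rw [norm_sub_sq_real, norm_smul, real_inner_smul_right, real_inner_comm, hρ,
    Real.norm_of_nonneg (by norm_num : (0 : ℝ) ≤ 3 / 2)] at h1
  have h2 := norm_nonneg u
  nlinarith [sq_nonneg (‖w‖ - 3 / 2)]

/-- `x` belongs to the piece of the centre `i`. -/
def Good {m : ℕ} (r ρ : ℝ) (A : Fin m → V d) (i : Fin m) (x : V d) : Prop :=
  ‖x - A i‖ < r ∧ ∀ j, j ≠ i → ρ < ‖A j - A i - (3 / 2 : ℝ) • (x - A i)‖

theorem good_ne {m : ℕ} {ρ : ℝ} (hρ : ρ ^ 2 = 27 / 16) (hρ0 : 0 ≤ ρ) {A : Fin m → V d}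
    {i j : Fin m} {x y : V d} (hx : Good (1 / 2) ρ A i x) (hy : Good (1 / 2) ρ A j y) :
    ‖x - y‖ ≠ 1 := by
  by_cases hij : i = j
  · subst hij
    have h1 : x - y = (x - A i) - (y - A i) := by abel
    have h2 := norm_sub_le (x - A i) (y - A i)
    rw [h1]
    linarith [hx.1, hy.1]
  · have h1 := piece hρ hρ0 hx.1 (hx.2 j (Ne.symm hij))
    have h2 := piece hρ hρ0 hy.1 (hy.2 i hij)
    rw [← neg_sub (A j) (A i), norm_neg, inner_neg_right] at h2
    have h3 : y - x = (A j - A i) + (y - A j) - (x - A i) := by abel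
    have h4 : ⟪y - x, A j - A i⟫ ≤ ‖y - x‖ * ‖A j - A i‖ := real_inner_le_norm _ _
    intro h
    rw [norm_sub_rev] at h
    rw [h, h3, inner_sub_left, inner_add_left, real_inner_self_eq_norm_sq] at h4
    linarith

theorem good_near {m : ℕ} {ρ ε : ℝ} {A : Fin m → V d} {i : Fin m} {x z : V d}
    (hz : Good (1 / 2 - ε) (ρ + 3 / 2 * ε) A i z) (h : ‖x - z‖ ≤ ε) : Good (1 / 2) ρ A i x := by
  refine ⟨?_, fun j hj => ?_⟩
  · have h1 : x - A i = (x - z) + (z - A i) := by abel
    have h2 := norm_add_le (x - z) (z - A i)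
    rw [h1]
    linarith [hz.1]
  · have h1 : A j - A i - (3 / 2 : ℝ) • (z - A i) =
        (A j - A i - (3 / 2 : ℝ) • (x - A i)) + (3 / 2 : ℝ) • (x - z) := by module
    have h2 := hz.2 j hj
    have h3 := norm_add_le (A j - A i - (3 / 2 : ℝ) • (x - A i)) ((3 / 2 : ℝ) • (x - z))
    rw [← h1, norm_smul, Real.norm_of_nonneg (by norm_num : (0 : ℝ) ≤ 3 / 2)] at h3
    linarith

theorem pair_map {Ω : Type} [MeasurableSpace Ω] (ν : Measure Ω) [IsProbabilityMeasure ν] {m : ℕ}
    {i j : Fin m} (h : i ≠ j) :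
    (Measure.pi fun _ : Fin m => ν).map (fun A => (A i, A j)) = ν.prod ν := by
  have h1 : iIndepFun (fun (k : Fin m) (A : Fin m → Ω) => A k) (Measure.pi fun _ : Fin m => ν) :=
    iIndepFun_pi (X := fun _ => id) fun _ => aemeasurable_id
  have h2 := (indepFun_iff_map_prod_eq_prod_map_map (measurable_pi_apply i).aemeasurable
    (measurable_pi_apply j).aemeasurable).1 (h1.indepFun h)
  rwa [(measurePreserving_eval (fun _ : Fin m => ν) i).map_eq,
    (measurePreserving_eval (fun _ : Fin m => ν) j).map_eq] at h2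

theorem prob (ν : Measure (V d)) [IsProbabilityMeasure ν] {m : ℕ} {r ρ q v : ℝ} (z : V d)
    (hr : 3 / 2 * r ≤ ρ) (hv0 : 0 ≤ v) (hq : ν.real (ball z r) = q)
    (hv : ∀ c, ν.real (closedBall c ρ) ≤ v) :
    (Measure.pi fun _ : Fin m => ν).real {A | ¬ ∃ i, Good r ρ A i z} ≤ 1 - m * q * (1 - m * v) := by
  set μ := Measure.pi fun _ : Fin m => ν with hμ
  have hq0 : 0 ≤ q := hq ▸ measureReal_nonneg
  let D : Set (V d × V d) :=
    {p | ‖z - p.1‖ < r ∧ ‖p.2 - p.1 - (3 / 2 : ℝ) • (z - p.1)‖ ≤ ρ}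
  have hD : MeasurableSet D :=
    (measurableSet_lt (f := fun p : V d × V d => ‖z - p.1‖) (by fun_prop) measurable_const).inter
      (measurableSet_le (f := fun p : V d × V d => ‖p.2 - p.1 - (3 / 2 : ℝ) • (z - p.1)‖)
        (by fun_prop) measurable_const)
  have hDm : (ν.prod ν).real D ≤ q * v := by
    have h1 : (ν.prod ν) D ≤ ∫⁻ c, (ball z r).indicator (fun _ => ENNReal.ofReal v) c ∂ν := by
      rw [Measure.prod_apply hD]
      refine lintegral_mono fun c => ?_
      by_cases hc : c ∈ ball z r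
      · rw [indicator_of_mem hc]
        refine le_trans (measure_mono (t := closedBall (c + (3 / 2 : ℝ) • (z - c)) ρ)
          fun c' h => ?_) ?_
        · rw [mem_closedBall, dist_eq_norm, ← sub_sub]
          exact h.2
        · rw [← ofReal_measureReal]
          exact ENNReal.ofReal_le_ofReal (hv _)
      · have : Prod.mk c ⁻¹' D = ∅ := eq_empty_of_forall_notMem fun c' h =>
          hc (by rw [mem_ball, dist_comm, dist_eq_norm]; exact h.1)
        simp only [this, measure_empty, zero_le]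
    rw [lintegral_indicator_const measurableSet_ball] at h1
    have h2 := ENNReal.toReal_mono (by finiteness) h1
    rw [ENNReal.toReal_mul, ENNReal.toReal_ofReal hv0, mul_comm] at h2
    rw [← hq]
    exact h2
  have hm : ∀ i, MeasurableSet {A : Fin m → V d | Good r ρ A i z} := fun i => by
    have : {A : Fin m → V d | Good r ρ A i z} = {A | ‖z - A i‖ < r} ∩
        ⋂ j, ⋂ (_ : j ≠ i), {A | ρ < ‖A j - A i - (3 / 2 : ℝ) • (z - A i)‖} := by
      ext A
      simp [Good]
    rw [this]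
    exact (measurableSet_lt (by fun_prop) measurable_const).inter (MeasurableSet.iInter fun j =>
      MeasurableSet.iInter fun _ => measurableSet_lt measurable_const (by fun_prop))
  have hE : ∀ i, q * (1 - m * v) ≤ μ.real {A | Good r ρ A i z} := fun i => by
    have h1 : μ.real ((fun A => A i) ⁻¹' ball z r) = q := by
      rw [← hq]
      exact (measurePreserving_eval (fun _ : Fin m => ν) i).measureReal_preimage
        measurableSet_ball.nullMeasurableSet
    have h2 : (fun A => A i) ⁻¹' ball z r ⊆ {A | Good r ρ A i z} ∪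
        ⋃ j ∈ Finset.univ.erase i, (fun A : Fin m → V d => (A i, A j)) ⁻¹' D := by
      intro A hA
      have h3 : ‖z - A i‖ < r := by rwa [mem_preimage, mem_ball, dist_comm, dist_eq_norm] at hA
      by_cases h4 : Good r ρ A i z
      · exact Or.inl h4
      · simp only [Good, h3, true_and, not_forall, not_lt] at h4
        obtain ⟨j, hj, h5⟩ := h4
        exact Or.inr (mem_biUnion (Finset.mem_coe.2 (Finset.mem_erase.2 ⟨hj, Finset.mem_univ _⟩))
          ⟨h3, h5⟩)
    have h3 := (measureReal_mono (μ := μ) h2 (measure_ne_top _ _)).trans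
      (measureReal_union_le _ _)
    have h4 := measureReal_biUnion_finset_le (μ := μ) (Finset.univ.erase i)
      fun j => (fun A : Fin m → V d => (A i, A j)) ⁻¹' D
    have h5 : ∑ j ∈ Finset.univ.erase i, μ.real ((fun A : Fin m → V d => (A i, A j)) ⁻¹' D) ≤
        m * (q * v) := by
      refine (Finset.sum_le_card_nsmul _ _ (q * v) fun j hj => ?_).trans ?_
      · rw [← map_measureReal_apply (by fun_prop) hD, hμ, pair_map ν (Finset.mem_erase.1 hj).1.symm]
        exact hDm
      · rw [nsmul_eq_mul]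
        refine mul_le_mul_of_nonneg_right ?_ (by positivity)
        exact_mod_cast (Finset.card_le_univ _).trans (by simp)
    linarith
  have hdis : Pairwise (Function.onFun Disjoint fun i => {A : Fin m → V d | Good r ρ A i z}) := by
    intro i j hij
    refine disjoint_left.2 fun A h1 h2 => ?_
    have h3 := h1.2 j hij.symm
    have h4 : A j - A i - (3 / 2 : ℝ) • (z - A i) = -(z - A j) - (1 / 2 : ℝ) • (z - A i) := by
      module
    have h5 := norm_sub_le (-(z - A j)) ((1 / 2 : ℝ) • (z - A i))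
    rw [← h4, norm_neg, norm_smul, Real.norm_of_nonneg (by norm_num : (0 : ℝ) ≤ 1 / 2)] at h5
    linarith [h1.1, h2.1]
  have hU : {A : Fin m → V d | ¬ ∃ i, Good r ρ A i z} = (⋃ i, {A | Good r ρ A i z})ᶜ := by
    ext A
    simp
  rw [hU, probReal_compl_eq_one_sub (MeasurableSet.iUnion hm), measureReal_iUnion_fintype hdis hm]
  have h6 := Finset.card_nsmul_le_sum Finset.univ _ _ fun i _ => hE i
  rw [Finset.card_univ, Fintype.card_fin, nsmul_eq_mul] at h6
  linarith

theorem cover {Ω Z : Type} [MeasurableSpace Ω] [Fintype Z] (μ : Measure Ω)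
    [IsProbabilityMeasure μ] (B : Z → Set Ω) {p : ℝ} (N : ℕ) (h : ∀ z, μ.real (B z) ≤ 1 - p)
    (hN : Fintype.card Z * Real.exp (-(p * N)) < 1) : ∃ ω : Fin N → Ω, ∀ z, ∃ k, ω k ∉ B z := by
  by_contra hc
  push Not at hc
  have h1 : (univ : Set (Fin N → Ω)) ⊆ ⋃ z, univ.pi fun _ => B z := fun ω _ => by
    obtain ⟨z, hz⟩ := hc ω
    exact mem_iUnion.2 ⟨z, fun k _ => hz k⟩
  have h2 := (measureReal_mono (μ := Measure.pi fun _ : Fin N => μ) h1).trans
    (measureReal_iUnion_fintype_le _)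
  have h3 : ∀ z, (Measure.pi fun _ : Fin N => μ).real (univ.pi fun _ => B z) ≤
      Real.exp (-(p * N)) := fun z => by
    rw [Measure.real, Measure.pi_pi, Finset.prod_const, Finset.card_univ, Fintype.card_fin,
      ENNReal.toReal_pow, show -(p * N) = N * -p by ring, Real.exp_nat_mul]
    exact pow_le_pow_left₀ ENNReal.toReal_nonneg
      ((h z).trans (by linarith [Real.add_one_le_exp (-p)])) N
  have h4 := Finset.sum_le_card_nsmul Finset.univ _ _ fun z _ => h3 z
  rw [Finset.card_univ, nsmul_eq_mul] at h4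
  rw [probReal_univ] at h2
  linarith

end Pool.Agent.MP_66cee2_co.H26U
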