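import Pool.Agent.MP_66cee2_co.H26U.A
import Pool.Agent.MP_66cee2_co.H12.Shift

/-
A colouring of a cube, of the space, and the non-isometric map.
-/

namespace Pool.Agent.MP_66cee2_co.H26U

open MeasureTheory Set Metric Filter ProbabilityTheory
open scoped ENNReal RealInnerProductSpace

variable {d : ℕ}

theorem unif (hd : 1 ≤ d) {R : ℝ} (hR : 0 < R) : ∃ ν : Measure (V d), IsProbabilityMeasure ν ∧
    (∀ c r, 0 ≤ r → ν.real (closedBall c r) ≤ (r / R) ^ d) ∧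
    ∀ c r, 0 ≤ r → ‖c‖ + r ≤ R → ν.real (ball c r) = (r / R) ^ d := by
  have : Nonempty (Fin d) := ⟨⟨0, hd⟩⟩
  have h0 : volume (ball (0 : V d) R) ≠ 0 := (measure_ball_pos _ _ hR).ne'
  have h1 : volume (ball (0 : V d) R) ≠ ∞ := measure_ball_lt_top.ne
  have hb : ∀ (c : V d) (r : ℝ), 0 ≤ r →
      volume.real (ball c r) = r ^ d * volume.real (ball (0 : V d) 1) := fun c r hr => by
    rw [Measure.real, Measure.addHaar_ball _ _ hr, ENNReal.toReal_mul,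
      ENNReal.toReal_ofReal (by positivity), finrank_euclideanSpace, Fintype.card_fin, Measure.real]
  have hp : 0 < volume.real (ball (0 : V d) 1) :=
    ENNReal.toReal_pos (measure_ball_pos _ _ one_pos).ne' measure_ball_lt_top.ne
  have key : ∀ s : Set (V d), (volume[|ball (0 : V d) R]).real s =
      (R ^ d * volume.real (ball (0 : V d) 1))⁻¹ * volume.real (ball (0 : V d) R ∩ s) := fun s => by
    rw [Measure.real, cond_apply measurableSet_ball, ENNReal.toReal_mul, ENNReal.toReal_inv,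
      ← hb 0 R hR.le]
    rfl
  have fin : ∀ r : ℝ, (R ^ d * volume.real (ball (0 : V d) 1))⁻¹ *
      (r ^ d * volume.real (ball (0 : V d) 1)) = (r / R) ^ d := fun r => by
    rw [div_pow]
    field_simp
  refine ⟨volume[|ball (0 : V d) R], cond_isProbabilityMeasure_of_finite h0 h1,
    fun c r hr => ?_, fun c r hr h => ?_⟩
  · rw [key, ← fin, ← hb c r hr]
    refine mul_le_mul_of_nonneg_left ?_ (by positivity)
    refine (measureReal_mono inter_subset_right measure_closedBall_lt_top.ne).trans (le_of_eq ?_)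
    rw [Measure.real, Measure.addHaar_closedBall_eq_addHaar_ball, Measure.real]
  · rw [key, ← fin, ← hb c r hr, inter_eq_right.2 (ball_subset_ball' (by
      rw [dist_zero_right]; linarith))]

/-- a finite set of points is robustly covered by few random configurations. -/
theorem net (hd : 1 ≤ d) {Z : Type} [Fintype Z] (z : Z → V d) {r ρ : ℝ} (hr : 0 < r)
    (h : 3 / 2 * r ≤ ρ) (N : ℕ)
    (hN : Fintype.card Z * Real.exp (-((r / ρ) ^ d / 8 * N)) < 1) :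
    ∃ (m : ℕ) (A : Fin N → Fin m → V d), ∀ a, ∃ k i, Good r ρ (A k) i (z a) := by
  obtain ⟨T, hT⟩ := (Set.finite_range fun a => ‖z a‖).bddAbove
  have hρ : 0 < ρ := by linarith
  set R := |T| + r + 2 * ρ with hR
  have hR0 : 0 < R := by positivity
  obtain ⟨ν, _, h1, h2⟩ := unif hd hR0
  have hv0 : 0 < (ρ / R) ^ d := by positivity
  have hv1 : (ρ / R) ^ d ≤ 1 / 2 := by
    have h3 : ρ / R ≤ 1 / 2 := by
      rw [div_le_div_iff₀ hR0 (by norm_num)]
      linarith [abs_nonneg T]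
    exact (pow_le_of_le_one (by positivity) (by linarith) (by omega)).trans h3
  have hq : (r / R) ^ d = (r / ρ) ^ d * (ρ / R) ^ d := by
    rw [← mul_pow]
    field_simp
  have h1' := fun c => h1 c ρ hρ.le
  generalize (ρ / R) ^ d = v at hv0 hv1 hq h1'
  have hx : 1 ≤ 1 / (2 * v) := by
    rw [le_div_iff₀ (by positivity)]
    linarith
  have m1 : (⌊1 / (2 * v)⌋₊ : ℝ) * v ≤ 1 / 2 := by
    have h3 := mul_le_mul_of_nonneg_right (Nat.floor_le (by positivity : 0 ≤ 1 / (2 * v))) hv0.le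
    rwa [show 1 / (2 * v) * v = 1 / 2 by field_simp] at h3
  have m2 : 1 / 4 ≤ (⌊1 / (2 * v)⌋₊ : ℝ) * v := by
    have h3 := Nat.lt_floor_add_one (1 / (2 * v))
    have h4 : (1 : ℝ) ≤ ⌊1 / (2 * v)⌋₊ := by exact_mod_cast Nat.floor_pos.2 hx
    have h5 := mul_le_mul_of_nonneg_right
      (show 1 / (2 * v) ≤ 2 * (⌊1 / (2 * v)⌋₊ : ℝ) by linarith) hv0.le
    rw [show 1 / (2 * v) * v = 1 / 2 by field_simp] at h5
    linarith
  generalize ⌊1 / (2 * v)⌋₊ = m at m1 m2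
  have ha : 0 < (r / ρ) ^ d := by positivity
  obtain ⟨A, hA⟩ := cover (Measure.pi fun _ : Fin m => ν)
    (fun a => {A | ¬ ∃ i, Good r ρ A i (z a)}) N (fun a => by
      have h3 : ‖z a‖ + r ≤ R := by linarith [hT ⟨a, rfl⟩, le_abs_self T]
      refine (prob ν (z a) h hv0.le (h2 _ r hr.le h3) h1').trans ?_
      rw [hq]
      have h4 : 1 / 8 ≤ m * v * (1 - m * v) := by nlinarith
      nlinarith) hN
  exact ⟨m, A, fun a => (hA a).imp fun k hk => not_not.1 hk⟩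

theorem grid (hd : 1 ≤ d) {t : ℕ} (ht : 1 ≤ t) (x : V d)
    (hx : ∀ i, x i ∈ Ico (0 : ℝ) (2 * d)) : ∃ k : Fin d → Fin (2 * d * (t * d)),
      ‖x - WithLp.toLp 2 fun i => ((k i).val : ℝ) / (t * d)‖ ≤ 1 / t := by
  have hd0 : (1 : ℝ) ≤ d := by exact_mod_cast hd
  have ht0 : (1 : ℝ) ≤ t := by exact_mod_cast ht
  have hs : (0 : ℝ) < t * d := by positivity
  refine ⟨fun i => ⟨⌊x i * (t * d)⌋₊, (Nat.floor_lt (mul_nonneg (hx i).1 hs.le)).2 (by
    push_cast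
    exact mul_lt_mul_of_pos_right (hx i).2 hs)⟩, ?_⟩
  rw [EuclideanSpace.norm_eq]
  refine Real.sqrt_le_iff.2 ⟨by positivity, ?_⟩
  refine (Finset.sum_le_card_nsmul _ _ ((1 / (t * d)) ^ 2 : ℝ) fun i _ => ?_).trans ?_
  · refine pow_le_pow_left₀ (norm_nonneg _) ?_ 2
    have h1 := Nat.floor_le (mul_nonneg (hx i).1 hs.le)
    have h2 := Nat.lt_floor_add_one (x i * (t * d))
    have h3 : x i - (⌊x i * (t * d)⌋₊ : ℝ) / (t * d) = (x i * (t * d) - ⌊x i * (t * d)⌋₊) / (t * d) := by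
      field_simp
    simp only [PiLp.sub_apply, Real.norm_eq_abs]
    rw [h3, abs_of_nonneg (div_nonneg (by linarith) hs.le)]
    exact div_le_div_of_nonneg_right (by linarith) hs.le
  · rw [Finset.card_univ, Fintype.card_fin, nsmul_eq_mul, div_pow, div_pow, ← mul_div_assoc,
      div_le_div_iff₀ (by positivity) (by positivity)]
    have h1 : (0 : ℝ) < t ^ 2 * d := by positivity
    nlinarith

theorem upper (c : ℝ) (hc : 3 * √3 / 2 < c) : ∃ d₀ : ℕ, ∀ d n : ℕ, d₀ ≤ d → c ^ d ≤ (n : ℝ) →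
    ∃ f : EuclideanSpace ℝ (Fin d) → EuclideanSpace ℝ (Fin n),
      (∀ x y, ‖x - y‖ = 1 → ‖f x - f y‖ = 1) ∧ ∃ x y, ‖f x - f y‖ ≠ ‖x - y‖ := by
  have h3 : √3 ^ 2 = 3 := Real.sq_sqrt (by norm_num)
  have h4 : 1 ≤ √3 := Real.one_le_sqrt.2 (by norm_num)
  obtain ⟨ρ, hρ, hρ1, hc'⟩ : ∃ ρ : ℝ, ρ ^ 2 = 27 / 16 ∧ 3 / 4 ≤ ρ ∧ 2 * ρ < c :=
    ⟨3 * √3 / 4, by nlinarith, by linarith, by linarith⟩
  obtain ⟨t, ht⟩ := exists_nat_gt ((3 + 2 * c) / (c - 2 * ρ))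
  rw [div_lt_iff₀ (by linarith)] at ht
  have ht2 : (2 : ℝ) < t := by nlinarith
  have ht1 : 1 ≤ t := by exact_mod_cast (by linarith : (1 : ℝ) ≤ t)
  have e0 : (0 : ℝ) < 1 / t := by positivity
  have e1 : (t : ℝ) * (1 / t) = 1 := by field_simp
  have hr : (0 : ℝ) < 1 / 2 - 1 / t := by nlinarith
  have hβ : (ρ + 3 / 2 * (1 / t)) / (1 / 2 - 1 / t) < c := by
    rw [div_lt_iff₀ hr]
    nlinarith
  have hβ1 : 1 ≤ (ρ + 3 / 2 * (1 / t)) / (1 / 2 - 1 / t) := by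
    rw [le_div_iff₀ hr]
    linarith
  have hinv : (1 / 2 - 1 / t) / (ρ + 3 / 2 * (1 / t)) =
      ((ρ + 3 / 2 * (1 / t)) / (1 / 2 - 1 / t))⁻¹ := (inv_div _ _).symm
  generalize (ρ + 3 / 2 * (1 / t)) / (1 / 2 - 1 / t) = β at hβ hβ1 hinv
  obtain ⟨d₁, h₁⟩ := eventually_atTop.1 ((tendsto_pow_const_div_const_pow_of_one_lt 3
    ((one_lt_div (by linarith)).2 hβ)).eventually_le_const (by norm_num : (0 : ℝ) < 1 / 18))
  refine ⟨d₁ + 12 * t + 1, fun d n hd hn => ?_⟩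
  have hd1 : 1 ≤ d := by omega
  have hd0 : (1 : ℝ) ≤ d := by exact_mod_cast hd1
  have hdt : 12 * (t : ℝ) < d := by exact_mod_cast (by omega : 12 * t < d)
  have hb : 1 ≤ β ^ d := one_le_pow₀ hβ1
  obtain ⟨m, A, hA⟩ := net hd1
    (fun k : Fin d → Fin (2 * d * (t * d)) => WithLp.toLp 2 fun i => ((k i).val : ℝ) / (t * d))
    hr (by linarith : 3 / 2 * (1 / 2 - 1 / (t : ℝ)) ≤ ρ + 3 / 2 * (1 / t))
    ⌈8 * (d : ℝ) ^ 2 * β ^ d⌉₊ (by
      have a1 := Nat.le_ceil (8 * (d : ℝ) ^ 2 * β ^ d)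
      have a2 : (d : ℝ) * d ≤ β⁻¹ ^ d / 8 * ⌈8 * (d : ℝ) ^ 2 * β ^ d⌉₊ := by
        refine le_trans (le_of_eq ?_) (mul_le_mul_of_nonneg_left a1 (by positivity))
        rw [inv_pow]
        field_simp
      have a3 := Real.pow_div_factorial_le_exp (d : ℝ) (by positivity) 3
      have a4 : (2 * d * (t * d) : ℝ) < Real.exp d := by
        refine lt_of_lt_of_le ?_ a3
        have a5 : (0 : ℝ) < d ^ 2 := by positivity
        norm_num [Nat.factorial]
        nlinarith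
      have a6 := pow_lt_pow_left₀ a4 (by positivity) (by omega : d ≠ 0)
      rw [← Real.exp_nat_mul] at a6
      rw [hinv, Fintype.card_fun, Fintype.card_fin, Fintype.card_fin, Real.exp_neg,
        ← div_eq_mul_inv, div_lt_one (Real.exp_pos _)]
      push_cast
      exact a6.trans_le (Real.exp_le_exp.2 a2))
  have hN : (d + 1) * ⌈8 * (d : ℝ) ^ 2 * β ^ d⌉₊ ≤ n := by
    have a1 := (Nat.ceil_lt_add_one (by positivity : 0 ≤ 8 * (d : ℝ) ^ 2 * β ^ d)).le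
    have a2 := h₁ d (by omega)
    rw [div_pow, div_div_eq_mul_div, div_le_iff₀ (pow_pos (by linarith) d)] at a2
    have a3 : (1 : ℝ) ≤ d ^ 2 * β ^ d := one_le_mul_of_one_le_of_one_le (one_le_pow₀ hd0) hb
    have a4 : ((d : ℝ) + 1) * ⌈8 * (d : ℝ) ^ 2 * β ^ d⌉₊ ≤ (2 * d) * (9 * (d ^ 2 * β ^ d)) :=
      mul_le_mul (by linarith) (by linarith) (by positivity) (by positivity)
    have a5 : ((d : ℝ) + 1) * ⌈8 * (d : ℝ) ^ 2 * β ^ d⌉₊ ≤ n := by nlinarith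
    exact_mod_cast a5
  have hx : ∀ x : V d, ∃ k : Fin ⌈8 * (d : ℝ) ^ 2 * β ^ d⌉₊,
      (∀ i, x i ∈ Ico (0 : ℝ) (2 * d)) → ∃ i, Good (1 / 2) ρ (A k) i x := fun x => by
    by_cases h : ∀ i, x i ∈ Ico (0 : ℝ) (2 * d)
    · obtain ⟨a, ha⟩ := grid hd1 ht1 x h
      obtain ⟨k, i, hk⟩ := hA a
      exact ⟨k, fun _ => ⟨i, good_near hk ha⟩⟩
    · exact ⟨⟨0, Nat.ceil_pos.2 (by positivity)⟩, fun h' => (h h').elim⟩
  choose col hcol using hx
  refine H12S.map_of_cube hd1 hN col fun x y h1 h2 h e => ?_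
  obtain ⟨i, hi⟩ := hcol x h1
  obtain ⟨j, hj⟩ := hcol y h2
  rw [← e] at hj
  exact good_ne hρ (by linarith) hi hj h

end Pool.Agent.MP_66cee2_co.H26U
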